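import Mathlib

/-! Coefficient fields and integrality of continuous l-adic representations of compact groups. -/

namespace Pool.Agent.R390.BG

open Polynomial IntermediateField

variable (p : ℕ) [Fact p.Prime]

/-- every element of the algebraic closure of Q_l lies in Q_l(y) for some y algebraic over Q -/
theorem exists_algebraic_near (x : PadicAlgCl p) :
    ∃ y : PadicAlgCl p, IsAlgebraic ℚ y ∧ x ∈ ℚ_[p]⟮y⟯ := by
  classical
  have hxi : IsIntegral ℚ_[p] x := Algebra.IsIntegral.isIntegral x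
  set f := minpoly ℚ_[p] x with hf
  have hfm : f.Monic := minpoly.monic hxi
  have hfd : 0 < f.natDegree := minpoly.natDegree_pos hxi
  obtain ⟨δ, hδ, hδ'⟩ : ∃ δ : ℝ, 0 < δ ∧ ∀ x' : PadicAlgCl p, IsConjRoot ℚ_[p] x x' → x ≠ x' →
      δ ≤ ‖x - x'‖ := by
    let S : Finset (PadicAlgCl p) := {a ∈ (f.rootSet (PadicAlgCl p)).toFinset | x ≠ a}
    by_cases hS : S.Nonempty
    · refine ⟨S.inf' hS (fun a => ‖x - a‖), ?_, ?_⟩
      · rw [Finset.lt_inf'_iff]
        intro a ha
        simp only [S, Finset.mem_filter] at ha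
        exact norm_pos_iff.2 (sub_ne_zero.2 ha.2)
      · intro x' hx' hne
        apply Finset.inf'_le
        simp only [S, Finset.mem_filter, Set.mem_toFinset]
        exact ⟨(isConjRoot_iff_mem_minpoly_rootSet hxi).1 hx', hne⟩
    · refine ⟨1, one_pos, fun x' hx' hne => (hS ⟨x', ?_⟩).elim⟩
      simp only [S, Finset.mem_filter, Set.mem_toFinset]
      exact ⟨(isConjRoot_iff_mem_minpoly_rootSet hxi).1 hx', hne⟩
  set M := max ‖x‖ 1 with hM
  have hM1 : 0 < M := lt_of_lt_of_le one_pos (le_max_right _ _)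
  set ε : ℝ := (δ / (2 * M)) ^ f.natDegree / (f.natDegree + 1) with hε
  have hε0 : 0 < ε := by positivity
  obtain ⟨g, hg1, hg2, hg3⟩ :=
    Polynomial.exists_monic_and_natDegree_eq_and_norm_map_algebraMap_coeff_sub_lt
      (K := ℚ) (L := ℚ_[p]) (by
        have h1 : (algebraMap ℚ ℚ_[p] : ℚ → ℚ_[p]) = Rat.cast := by ext q; simp
        rw [h1]; exact Padic.denseRange_ratCast p) hfm hε0
  obtain ⟨y, hy1, hy2⟩ := Polynomial.exists_aroots_norm_sub_lt_of_norm_coeff_sub_lt
    (K := ℚ_[p]) (L := PadicAlgCl p) (f := f) (g := g.map (algebraMap ℚ ℚ_[p])) (a := x) hε0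
    (minpoly.aeval _ _) hfm (hg1.map _) (by rw [natDegree_map]; exact hg2.symm)
    hg3 (IsAlgClosed.splits _)
  have hy3 : ‖x - y‖ < δ := by
    have h1 : (((f.natDegree : ℝ) + 1) * ε) = (δ / (2 * M)) ^ f.natDegree := by
      rw [hε]; field_simp
    rw [h1, Real.pow_rpow_inv_natCast (by positivity) (by omega)] at hy2
    have h2 : δ / (2 * M) * M = δ / 2 := by field_simp
    rw [h2] at hy2
    linarith
  refine ⟨y, ?_, ?_⟩
  · refine ⟨g, hg1.ne_zero, ?_⟩
    rw [mem_aroots'] at hy1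
    have := hy1.2
    rwa [aeval_map_algebraMap] at this
  · apply IsKrasner.krasner
    · exact (minpoly.irreducible hxi).separable
    · exact IsAlgClosed.splits _
    · exact Algebra.IsIntegral.isIntegral y
    · intro x' hx' hne
      exact lt_of_lt_of_le hy3 (hδ' x' hx' hne)

theorem exists_gen (L : IntermediateField ℚ_[p] (PadicAlgCl p)) [FiniteDimensional ℚ_[p] L] :
    ∃ y : PadicAlgCl p, IsAlgebraic ℚ y ∧ L ≤ ℚ_[p]⟮y⟯ := by
  obtain ⟨α, hα⟩ := Field.exists_primitive_element ℚ_[p] L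
  obtain ⟨y, hy, hy'⟩ := exists_algebraic_near p (α : PadicAlgCl p)
  refine ⟨y, hy, ?_⟩
  have h1 : L = ℚ_[p]⟮(α : PadicAlgCl p)⟯ := by
    rw [← IntermediateField.lift_adjoin_simple, hα, IntermediateField.lift_top]
  rw [h1, IntermediateField.adjoin_simple_le_iff]
  exact hy'

instance fd_adj (y : PadicAlgCl p) : FiniteDimensional ℚ_[p] ℚ_[p]⟮y⟯ :=
  IntermediateField.adjoin.finiteDimensional (Algebra.IsIntegral.isIntegral y)

theorem closed_field (L : IntermediateField ℚ_[p] (PadicAlgCl p)) [FiniteDimensional ℚ_[p] L] :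
    IsClosed (L : Set (PadicAlgCl p)) := by
  haveI : FiniteDimensional ℚ_[p] L.toSubalgebra.toSubmodule :=
    inferInstanceAs (FiniteDimensional ℚ_[p] L)
  exact Submodule.closed_of_finiteDimensional L.toSubalgebra.toSubmodule

theorem fd_adjoin_finite {s : Set (PadicAlgCl p)} (hs : s.Finite) :
    FiniteDimensional ℚ_[p] (IntermediateField.adjoin ℚ_[p] s) := by
  haveI : Finite s := hs
  exact IntermediateField.finiteDimensional_adjoin fun x _ => Algebra.IsIntegral.isIntegral x

/-- A continuous representation of a compact group over the algebraic closure of Q_l has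
coefficients in Q_l(y) for some y algebraic over Q. -/
theorem exists_coeffField {Γ : Type} [Group Γ] [TopologicalSpace Γ] [IsTopologicalGroup Γ]
    [CompactSpace Γ] [T2Space Γ] {n : ℕ} (r : Γ →* GL (Fin n) (PadicAlgCl p))
    (hr : Continuous r) :
    ∃ y : PadicAlgCl p, IsAlgebraic ℚ y ∧
      ∀ g i j, (r g : Matrix (Fin n) (Fin n) (PadicAlgCl p)) i j ∈ ℚ_[p]⟮y⟯ := by
  classical
  have hcont : ∀ i j, Continuous fun g => (r g : Matrix (Fin n) (Fin n) (PadicAlgCl p)) i j :=
    fun i j => (Units.continuous_val.comp hr).matrix_elem i j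
  let S : Set (PadicAlgCl p) := {y | IsAlgebraic ℚ y}
  haveI : Countable S := (Algebraic.countable ℚ (PadicAlgCl p)).to_subtype
  let H : S → Set Γ := fun y =>
    {g | ∀ i j, (r g : Matrix (Fin n) (Fin n) (PadicAlgCl p)) i j ∈ ℚ_[p]⟮(y : PadicAlgCl p)⟯}
  have hH : ∀ y, IsClosed (H y) := by
    intro y
    have : H y = ⋂ i, ⋂ j, (fun g => (r g : Matrix (Fin n) (Fin n) (PadicAlgCl p)) i j) ⁻¹'
        (ℚ_[p]⟮(y : PadicAlgCl p)⟯ : Set (PadicAlgCl p)) := by
      ext g; simp [H]
    rw [this]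
    exact isClosed_iInter fun i => isClosed_iInter fun j =>
      (closed_field p _).preimage (hcont i j)
  have key : ∀ (s : Set (PadicAlgCl p)), s.Finite → ∃ y : S, s ⊆ ℚ_[p]⟮(y : PadicAlgCl p)⟯ := by
    intro s hs
    haveI := fd_adjoin_finite p hs
    obtain ⟨y, hy, hy'⟩ := exists_gen p (IntermediateField.adjoin ℚ_[p] s)
    exact ⟨⟨y, hy⟩, (IntermediateField.subset_adjoin _ _).trans hy'⟩
  have hU : (⋃ y, H y) = Set.univ := by
    rw [Set.eq_univ_iff_forall]
    intro g
    obtain ⟨y, hy⟩ := key (Set.range fun ij : Fin n × Fin n =>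
      (r g : Matrix (Fin n) (Fin n) (PadicAlgCl p)) ij.1 ij.2) (Set.finite_range _)
    exact Set.mem_iUnion.2 ⟨y, fun i j => hy ⟨(i, j), rfl⟩⟩
  obtain ⟨y, w0, hw0⟩ := nonempty_interior_of_iUnion_of_closed hH hU
  have hcov : ∀ x : Γ, ∃ g : Γ, x ∈ (fun z => g⁻¹ * z) ⁻¹' interior (H y) := by
    intro x
    refine ⟨x * w0⁻¹, ?_⟩
    simpa using hw0
  obtain ⟨t, ht⟩ := isCompact_univ.elim_finite_subcover
    (fun g : Γ => (fun z => g⁻¹ * z) ⁻¹' interior (H y))
    (fun g => isOpen_interior.preimage (continuous_const_mul _))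
    (fun x _ => Set.mem_iUnion.2 (hcov x))
  obtain ⟨y', hy'⟩ := key ({(y : PadicAlgCl p)} ∪ ⋃ g ∈ t, Set.range fun ij : Fin n × Fin n =>
      (r g : Matrix (Fin n) (Fin n) (PadicAlgCl p)) ij.1 ij.2)
    ((Set.finite_singleton _).union (t.finite_toSet.biUnion fun g _ => Set.finite_range _))
  have hle : ℚ_[p]⟮(y : PadicAlgCl p)⟯ ≤ ℚ_[p]⟮(y' : PadicAlgCl p)⟯ := by
    rw [IntermediateField.adjoin_simple_le_iff]
    exact hy' (Or.inl rfl)
  refine ⟨y', y'.2, fun x i j => ?_⟩
  obtain ⟨g, hg, hx⟩ : ∃ g ∈ t, g⁻¹ * x ∈ interior (H y) := by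
    have := ht (Set.mem_univ x)
    simpa using this
  have hx' := interior_subset hx
  have hxe : x = g * (g⁻¹ * x) := by group
  rw [hxe, map_mul]
  simp only [Units.val_mul, Matrix.mul_apply]
  refine sum_mem fun k _ => mul_mem ?_ (hle (hx' k j))
  exact hy' (Or.inr (Set.mem_biUnion hg ⟨(i, k), rfl⟩))

theorem coeff_norm_le_one (s : Multiset (PadicAlgCl p)) (hs : ∀ a ∈ s, ‖a‖ ≤ 1) (k : ℕ) :
    ‖((s.map fun a => X - C a).prod).coeff k‖ ≤ 1 := by
  induction s using Multiset.induction_on generalizing k with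
  | empty =>
    simp only [Multiset.map_zero, Multiset.prod_zero, coeff_one]
    split_ifs <;> simp
  | cons a s ih =>
    have ih' := ih (fun b hb => hs b (Multiset.mem_cons_of_mem hb))
    have ha := hs a (Multiset.mem_cons_self a s)
    rw [Multiset.map_cons, Multiset.prod_cons, sub_mul, coeff_sub, coeff_C_mul]
    rw [sub_eq_add_neg]
    refine (IsUltrametricDist.norm_add_le_max _ _).trans (max_le ?_ ?_)
    · cases k with
      | zero => simp
      | succ k => rw [coeff_X_mul]; exact ih' k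
    · rw [norm_neg, norm_mul]
      exact mul_le_one₀ ha (norm_nonneg _) (ih' k)

/-- The characteristic polynomials of a continuous l-adic representation of a compact group
have integral coefficients. -/
theorem norm_charpoly_coeff_le {Γ : Type} [Group Γ] [TopologicalSpace Γ]
    [CompactSpace Γ] {n : ℕ} (r : Γ →* GL (Fin n) (PadicAlgCl p))
    (hr : Continuous r) (g : Γ) (k : ℕ) :
    ‖(r g : Matrix (Fin n) (Fin n) (PadicAlgCl p)).charpoly.coeff k‖ ≤ 1 := by
  classical
  have hcont : ∀ i j, Continuous fun g => (r g : Matrix (Fin n) (Fin n) (PadicAlgCl p)) i j :=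
    fun i j => (Units.continuous_val.comp hr).matrix_elem i j
  set A : Matrix (Fin n) (Fin n) (PadicAlgCl p) := (r g).val with hA
  have hbd : ∃ B : ℝ, ∀ (h : Γ) (i j : Fin n),
      ‖(r h : Matrix (Fin n) (Fin n) (PadicAlgCl p)) i j‖ ≤ B := by
    have h1 : ∀ ij : Fin n × Fin n, ∃ B : ℝ, ∀ h : Γ,
        ‖(r h : Matrix (Fin n) (Fin n) (PadicAlgCl p)) ij.1 ij.2‖ ≤ B := by
      intro ij
      obtain ⟨B, hB⟩ := (isCompact_univ (X := Γ)).exists_bound_of_continuousOn
        (hcont ij.1 ij.2).continuousOn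
      exact ⟨B, fun h => hB h (Set.mem_univ h)⟩
    choose B hB using h1
    refine ⟨∑ ij, |B ij|, fun h i j => (hB (i, j) h).trans ((le_abs_self _).trans ?_)⟩
    exact Finset.single_le_sum (f := fun ij => |B ij|) (fun ij _ => abs_nonneg _)
      (Finset.mem_univ (i, j))
  obtain ⟨B, hB⟩ := hbd
  have hsplit : A.charpoly = (A.charpoly.roots.map fun a => X - C a).prod :=
    (IsAlgClosed.splits A.charpoly).eq_prod_roots_of_monic A.charpoly_monic
  rw [hsplit]
  refine coeff_norm_le_one p _ (fun α hα => ?_) k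
  have hα' : A.charpoly.eval α = 0 := (mem_roots'.1 hα).2
  rw [Matrix.eval_charpoly] at hα'
  obtain ⟨x, hx0, hx⟩ := Matrix.exists_mulVec_eq_zero_iff.2 hα'
  have hx1 : A.mulVec x = α • x := by
    rw [Matrix.sub_mulVec, sub_eq_zero] at hx
    rw [← hx]
    ext i
    simp [Matrix.scalar_apply, Matrix.mulVec_diagonal]
  have hx2 : ∀ m : ℕ, (A ^ m).mulVec x = α ^ m • x := by
    intro m
    induction m with
    | zero => simp
    | succ m ih => rw [pow_succ, ← Matrix.mulVec_mulVec, hx1, Matrix.mulVec_smul, ih, smul_smul,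
        pow_succ, mul_comm]
  haveI : Nonempty (Fin n) := by
    by_contra hne
    rw [not_nonempty_iff] at hne
    exact hx0 (Subsingleton.elim _ _)
  obtain ⟨i, -, hi⟩ := Finset.exists_max_image Finset.univ (fun i => ‖x i‖) Finset.univ_nonempty
  have hxi : 0 < ‖x i‖ := by
    rw [norm_pos_iff]
    intro h0
    apply hx0
    ext j
    have := hi j (Finset.mem_univ j)
    rw [h0, norm_zero] at this
    exact norm_le_zero_iff.1 this
  have hpow : ∀ m : ℕ, ‖α‖ ^ m ≤ n * B := by
    intro m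
    have h1 : α ^ m * x i = ∑ j, (A ^ m) i j * x j := by
      have := congrFun (hx2 m) i
      simp only [Matrix.mulVec, dotProduct, Pi.smul_apply, smul_eq_mul] at this
      exact this.symm
    have h2 : ‖α‖ ^ m * ‖x i‖ ≤ n * B * ‖x i‖ := by
      rw [← norm_pow, ← norm_mul, h1]
      refine (norm_sum_le _ _).trans ?_
      have h3 : ∀ j ∈ (Finset.univ : Finset (Fin n)), ‖(A ^ m) i j * x j‖ ≤ B * ‖x i‖ := by
        intro j hj
        rw [norm_mul]
        have h4 : (A ^ m) = (r (g ^ m) : Matrix (Fin n) (Fin n) (PadicAlgCl p)) := by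
          rw [map_pow, Units.val_pow_eq_pow_val]
        rw [h4]
        exact mul_le_mul (hB _ _ _) (hi j hj) (norm_nonneg _)
          ((norm_nonneg _).trans (hB 1 i i))
      refine (Finset.sum_le_card_nsmul _ _ _ h3).trans ?_
      rw [Finset.card_univ, Fintype.card_fin, nsmul_eq_mul, mul_assoc]
    exact le_of_mul_le_mul_right h2 hxi
  by_contra hcon
  push Not at hcon
  obtain ⟨m, hm⟩ := ((tendsto_pow_atTop_atTop_of_one_lt hcon).eventually_gt_atTop (n * B)).exists
  exact absurd (hpow m) (not_le.2 hm)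

end Pool.Agent.R390.BG
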