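import Mathlib

/-! Galois representations of number fields with prescribed Frobenius polynomials. -/

namespace Pool.Agent.R390.BG

open NumberField IsDedekindDomain Polynomial

/-- the field of l-adic algebraic numbers -/
abbrev Ql (p : ℕ) [Fact p.Prime] := PadicAlgCl p

/-- a fixed algebraic closure of F -/
noncomputable abbrev Fb (F : Type) [Field F] := AlgebraicClosure F

/-- the ring of all algebraic integers of the algebraic closure of F -/
noncomputable abbrev Zb (F : Type) [Field F] := integralClosure ℤ (AlgebraicClosure F)

/-- the absolute Galois group of F -/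
noncomputable abbrev GF (F : Type) [Field F] := AlgebraicClosure F ≃ₐ[F] AlgebraicClosure F

/-- the finite places of F -/
abbrev Pl (F : Type) [Field F] [NumberField F] := HeightOneSpectrum (𝓞 F)

/-- the prime ideal Q of the ring of all algebraic integers lies above the finite place v -/
def Above (F : Type) [Field F] [NumberField F] (v : Pl F) (Q : Ideal (Zb F)) : Prop :=
  Q.IsPrime ∧ ∀ (a : 𝓞 F) (b : Zb F), (b : Fb F) = algebraMap F (Fb F) (a : F) →
    (b ∈ Q ↔ a ∈ v.asIdeal)

/-- membership in the inertia group of Q -/
def Inert (F : Type) [Field F] (Q : Ideal (Zb F)) (t : GF F) : Prop :=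
  ∀ x y : Zb F, (y : Fb F) = t (x : Fb F) → y - x ∈ Q

/-- membership in the set of arithmetic Frobenius elements at Q -/
def Frob (F : Type) [Field F] [NumberField F] (v : Pl F) (Q : Ideal (Zb F)) (s : GF F) : Prop :=
  ∀ x y : Zb F, (y : Fb F) = s (x : Fb F) → y - x ^ (Ideal.absNorm v.asIdeal) ∈ Q

/-- an n-dimensional l-adic representation of the absolute Galois group of F: a continuous
homomorphism to GL_n of the algebraic closure of Q_l -/
structure GRep (F : Type) [Field F] (p : ℕ) [Fact p.Prime] (n : ℕ) where
  /-- the homomorphism -/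
  hom : GF F →* GL (Fin n) (Ql p)
  /-- it is continuous -/
  cont : Continuous hom

/-- the matrix of r at s -/
noncomputable def GRep.mat {F : Type} [Field F] {p : ℕ} [Fact p.Prime] {n : ℕ} (r : GRep F p n) (s : GF F) :
    Matrix (Fin n) (Fin n) (Ql p) := (r.hom s).val

/-- the matrix M is semisimple, that is, diagonalizable -/
def Diag {p : ℕ} [Fact p.Prime] {n : ℕ} (M : Matrix (Fin n) (Fin n) (Ql p)) : Prop :=
  ∃ (g h : Matrix (Fin n) (Fin n) (Ql p)) (d : Fin n → Ql p),
    g * h = 1 ∧ M = g * Matrix.diagonal d * h

/-- The representation r is unramified at v, the image of Frobenius at v is semisimple and its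
characteristic polynomial is P. -/
def HasFrob {F : Type} [Field F] [NumberField F] {p : ℕ} [Fact p.Prime] {n : ℕ}
    (r : GRep F p n) (v : Pl F) (P : (Ql p)[X]) : Prop :=
  ∃ (Q : Ideal (Zb F)) (s : GF F), Above F v Q ∧ Frob F v Q s ∧
    (∀ t, Inert F Q t → r.mat t = 1) ∧ Diag (r.mat s) ∧ (r.mat s).charpoly = P

/-- v is outside the finite set S and does not divide l -/
def Good {F : Type} [Field F] [NumberField F] (S : Finset (Pl F)) (p : ℕ) (v : Pl F) : Prop :=
  v ∉ S ∧ (p : 𝓞 F) ∉ v.asIdeal

/-- There is an l-adic representation whose Frobenius at every place v outside S and l is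
semisimple with characteristic polynomial P v. -/
def HasRep {F : Type} [Field F] [NumberField F] (S : Finset (Pl F)) (p : ℕ) [Fact p.Prime]
    (n : ℕ) (P : Pl F → (Ql p)[X]) : Prop :=
  ∃ r : GRep F p n, ∀ v, Good S p v → HasFrob r v (P v)

/-- Faltings' finiteness theorem (Satz 5 of his 1983 paper) for n-dimensional l-adic
representations unramified outside S and l: over a given finite extension L of Q_l they are
distinguished by their Frobenius polynomials at finitely many places. -/
def FaltingsFinite (F : Type) [Field F] [NumberField F] (S : Finset (Pl F)) (p : ℕ)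
    [Fact p.Prime] (n : ℕ) : Prop :=
  ∀ L : IntermediateField ℚ_[p] (Ql p), FiniteDimensional ℚ_[p] L →
    ∃ T : Finset (Pl F), ∀ r1 r2 : GRep F p n,
      (∀ g i j, r1.mat g i j ∈ L) → (∀ g i j, r2.mat g i j ∈ L) →
      (∀ v, Good S p v → (∃ P, HasFrob r1 v P) ∧ ∃ P, HasFrob r2 v P) →
      (∀ v ∈ T, Good S p v → ∃ P, HasFrob r1 v P ∧ HasFrob r2 v P) →
      ∀ v, Good S p v → ∀ P1 P2, HasFrob r1 v P1 → HasFrob r2 v P2 → P1 = P2

/-- A family of monic complex polynomials of degree n, indexed by the finite places of F
outside S: for a cuspidal or general automorphic representation of GL_n, the characteristic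
polynomials of its Satake parameters. -/
structure Fam (F : Type) [Field F] [NumberField F] (S : Finset (Pl F)) (n : ℕ) where
  /-- the polynomials -/
  pol : Pl F → ℂ[X]
  /-- they are monic -/
  monic : ∀ v, v ∉ S → (pol v).Monic
  /-- of degree n -/
  deg : ∀ v, v ∉ S → (pol v).natDegree = n

/-- Part 1 of the conjecture for the family A and the field E: all the Satake parameters are
defined over E. -/
def DefinedOver {F : Type} [Field F] [NumberField F] {S : Finset (Pl F)} {n : ℕ}
    (A : Fam F S n) (E : IntermediateField ℚ ℂ) : Prop :=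
  ∀ v, v ∉ S → ∀ k, (A.pol v).coeff k ∈ E

/-- The conjecture for the family A: the Satake parameters are defined over a number field E,
and every embedding of E into the algebraic closure of any Q_l has its Galois
representation. -/
def BuzzardGee {F : Type} [Field F] [NumberField F] {S : Finset (Pl F)} {n : ℕ}
    (A : Fam F S n) : Prop :=
  ∃ E : IntermediateField ℚ ℂ, FiniteDimensional ℚ E ∧ DefinedOver A E ∧
    ∀ (p : ℕ) [Fact p.Prime] (i : E →+* Ql p) (B : Pl F → E[X]),
      (∀ v, v ∉ S → (B v).map (algebraMap E ℂ) = A.pol v) →
      HasRep S p n (fun v => (B v).map i)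

/-- The existence of the Galois representations of the family A for the prime l and all
isomorphisms of C with the algebraic closure of Q_l. -/
def AllIso {F : Type} [Field F] [NumberField F] {S : Finset (Pl F)} {n : ℕ}
    (A : Fam F S n) (p : ℕ) [Fact p.Prime] : Prop :=
  ∀ i : ℂ ≃+* Ql p, HasRep S p n (fun v => (A.pol v).map (i : ℂ →+* Ql p))

end Pool.Agent.R390.BG
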