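import Mathlib

/-! Extension of embeddings of countable rings to isomorphisms of uncountable algebraically
closed fields (Steinitz), and the cardinality of an algebraic closure of Q_l. -/

namespace Pool.Agent.R390.BG

open Cardinal

universe u

/-- Two uncountable algebraically closed fields of the same cardinality that contain the same
countable domain are isomorphic over it. -/
theorem exists_iso {R K L : Type} [CommRing R] [Nontrivial R] [Countable R] [Field K] [Field L]
    [IsAlgClosed K] [IsAlgClosed L] (f : R →+* K) (g : R →+* L)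
    (hf : Function.Injective f) (hg : Function.Injective g)
    (hK : ℵ₀ < #K) (hKL : #K = #L) :
    ∃ e : K ≃+* L, ∀ r, e (f r) = g r := by
  letI : Algebra R K := f.toAlgebra
  letI : Algebra R L := g.toAlgebra
  haveI : FaithfulSMul R K := (faithfulSMul_iff_algebraMap_injective R K).2 hf
  haveI : FaithfulSMul R L := (faithfulSMul_iff_algebraMap_injective R L).2 hg
  obtain ⟨s, hs⟩ := exists_isTranscendenceBasis R K
  obtain ⟨t, ht⟩ := exists_isTranscendenceBasis R L
  have hR : #R ≤ ℵ₀ := mk_le_aleph0
  have h1 := IsAlgClosed.cardinal_eq_cardinal_transcendence_basis_of_aleph0_lt' _ hs hR hK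
  have h2 := IsAlgClosed.cardinal_eq_cardinal_transcendence_basis_of_aleph0_lt' _ ht hR
    (hKL ▸ hK)
  have h3 : #s = #t := by rw [← h1, ← h2, hKL]
  obtain ⟨e⟩ := Cardinal.eq.1 h3
  letI := IsAlgClosed.isAlgClosure_of_transcendence_basis _ hs
  letI := IsAlgClosed.isAlgClosure_of_transcendence_basis _ ht
  let E : Algebra.adjoin R (Set.range ((↑) : s → K)) ≃ₐ[R]
      Algebra.adjoin R (Set.range ((↑) : t → L)) :=
    (hs.1.aevalEquiv.symm.trans (MvPolynomial.renameEquiv R e)).trans ht.1.aevalEquiv
  refine ⟨IsAlgClosure.equivOfEquiv K L E.toRingEquiv, fun r => ?_⟩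
  have h4 : f r = algebraMap (Algebra.adjoin R (Set.range ((↑) : s → K))) K
      (algebraMap R _ r) := rfl
  have h5 : g r = algebraMap (Algebra.adjoin R (Set.range ((↑) : t → L))) L
      (algebraMap R _ r) := rfl
  rw [h4, h5, IsAlgClosure.equivOfEquiv_algebraMap]
  congr 1
  exact E.commutes r

theorem card_padic (p : ℕ) [Fact p.Prime] : #ℚ_[p] = 𝔠 := by
  apply le_antisymm
  · have h : Function.Surjective (fun s : CauSeq ℚ (padicNorm p) => (Quotient.mk _ s : ℚ_[p])) :=
      Quotient.mk_surjective
    have h1 := Cardinal.mk_le_of_surjective h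
    refine h1.trans ?_
    have h2 : #(CauSeq ℚ (padicNorm p)) ≤ #(ℕ → ℚ) :=
      Cardinal.mk_le_of_injective (f := fun s => (s : ℕ → ℚ)) Subtype.coe_injective
    refine h2.trans ?_
    simp
  · exact continuum_le_cardinal_of_nontriviallyNormedField ℚ_[p]

theorem card_Qlbar (p : ℕ) [Fact p.Prime] : #(PadicAlgCl p) = 𝔠 := by
  apply le_antisymm
  · have h := Algebra.IsAlgebraic.cardinalMk_le_max ℚ_[p] (PadicAlgCl p)
    rw [card_padic] at h
    exact h.trans (by simp [aleph0_le_continuum])
  · rw [← card_padic p]
    exact Cardinal.mk_le_of_injective (algebraMap ℚ_[p] (PadicAlgCl p)).injective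

/-- The form used below: an embedding of a countable domain into C and into the algebraic closure
of Q_l are identified by some isomorphism of these two fields. -/
theorem exists_iso_Qlbar {R : Type} [CommRing R] [Nontrivial R] [Countable R] (p : ℕ)
    [Fact p.Prime] (f : R →+* ℂ) (g : R →+* PadicAlgCl p)
    (hf : Function.Injective f) (hg : Function.Injective g) :
    ∃ e : ℂ ≃+* PadicAlgCl p, ∀ r, e (f r) = g r := by
  apply exists_iso f g hf hg
  · rw [mk_complex]; exact aleph0_lt_continuum
  · rw [mk_complex, card_Qlbar]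

end Pool.Agent.R390.BG
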