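import Mathlib
import Pool.Agent.R390.BG.Defs
import Pool.Agent.R390.BG.Coef
import Pool.Agent.R390.BG.Steinitz

namespace Pool.Agent.R390.BG

open NumberField IsDedekindDomain Polynomial

/-- there are transcendental l-adic numbers of norm greater than one -/
theorem exists_big_transcendental (p : ℕ) [Fact p.Prime] :
    ∃ b : Ql p, Transcendental ℚ b ∧ 1 < ‖b‖ := by
  obtain ⟨b0, hb0⟩ : ∃ b : Ql p, Transcendental ℚ b := by
    by_contra hcon
    push Not at hcon
    have h1 : (Set.univ : Set (Ql p)).Countable :=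
      (Algebraic.countable ℚ (Ql p)).mono fun x _ => by
        have := hcon x
        simpa [Transcendental] using this
    have h2 : Cardinal.mk (Ql p) ≤ Cardinal.aleph0 := by
      rw [← Cardinal.mk_univ]; exact Set.Countable.le_aleph0 h1
    rw [card_Qlbar] at h2
    exact absurd h2 (not_le.2 Cardinal.aleph0_lt_continuum)
  have hb00 : b0 ≠ 0 := by
    rintro rfl
    exact hb0 isAlgebraic_zero
  have hp : (1 : ℝ) < p := by exact_mod_cast (Fact.out : p.Prime).one_lt
  obtain ⟨m, hm⟩ := ((tendsto_pow_atTop_atTop_of_one_lt hp).eventually_gt_atTop (‖b0‖⁻¹)).exists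
  refine ⟨algebraMap ℚ (Ql p) (((p : ℚ) ^ m)⁻¹) * b0, ?_, ?_⟩
  · intro halg
    apply hb0
    have h1 : b0 = algebraMap ℚ (Ql p) ((p : ℚ) ^ m) * (algebraMap ℚ (Ql p) (((p : ℚ) ^ m)⁻¹) *
        b0) := by
      rw [← mul_assoc, ← map_mul, mul_inv_cancel₀, map_one, one_mul]
      exact pow_ne_zero _ (by exact_mod_cast (Fact.out : p.Prime).ne_zero)
    rw [h1]
    exact (isAlgebraic_algebraMap _).mul halg
  · rw [norm_mul, map_inv₀, map_pow, norm_inv, norm_pow]
    have h2 : ‖algebraMap ℚ (Ql p) (p : ℚ)‖ = (p : ℝ)⁻¹ := by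
      have h3 : algebraMap ℚ (Ql p) (p : ℚ) = algebraMap ℚ_[p] (Ql p) (p : ℚ_[p]) := by simp
      rw [h3, PadicAlgCl.norm_extends, Padic.norm_p]
    rw [h2, inv_pow, inv_inv]
    have hn : 0 < ‖b0‖ := norm_pos_iff.2 hb00
    calc (1 : ℝ) = ‖b0‖⁻¹ * ‖b0‖ := (inv_mul_cancel₀ hn.ne').symm
      _ < (p : ℝ) ^ m * ‖b0‖ := mul_lt_mul_of_pos_right hm hn

variable {F : Type} [Field F] [NumberField F]

instance : CompactSpace (GF F) := inferInstance

theorem hasFrob_coeff {p : ℕ} [Fact p.Prime] {n : ℕ} {r : GRep F p n} {v : Pl F} {P : (Ql p)[X]}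
    (h : HasFrob r v P) (k : ℕ) : ‖P.coeff k‖ ≤ 1 := by
  obtain ⟨Q, s, -, -, -, -, h5⟩ := h
  rw [← h5]
  exact norm_charpoly_coeff_le p r.hom r.cont s k

/-- the coefficients are algebraic numbers -/
theorem isAlgebraic_coeff {S : Finset (Pl F)} {n : ℕ} (A : Fam F S n) (p : ℕ) [Fact p.Prime]
    (hA : AllIso A p) (v : Pl F) (hv : Good S p v) (k : ℕ) :
    IsAlgebraic ℚ ((A.pol v).coeff k) := by
  by_contra hcon
  obtain ⟨b, hb, hb1⟩ := exists_big_transcendental p
  have hc : Transcendental ℚ ((A.pol v).coeff k) := hcon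
  have hcount : Countable ℚ[X] := Cardinal.mk_le_aleph0_iff.1
    (by simpa using Polynomial.cardinalMk_le_max (R := ℚ))
  obtain ⟨e, he⟩ := exists_iso_Qlbar (R := ℚ[X]) p
    (aeval ((A.pol v).coeff k) : ℚ[X] →ₐ[ℚ] ℂ).toRingHom
    (aeval b : ℚ[X] →ₐ[ℚ] Ql p).toRingHom
    (transcendental_iff_injective.1 hc) (transcendental_iff_injective.1 hb)
  have h1 : e ((A.pol v).coeff k) = b := by
    have := he X
    simpa using this
  obtain ⟨r, hr⟩ := hA e
  have h2 := hasFrob_coeff (hr v hv) k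
  rw [coeff_map] at h2
  have h3 : ((e : ℂ →+* Ql p) ((A.pol v).coeff k)) = b := h1
  rw [h3] at h2
  linarith

/-- the field of algebraic numbers -/
noncomputable abbrev QQ : IntermediateField ℚ ℂ := algebraicClosure ℚ ℂ

instance : Countable QQ := by
  have h : {x : ℂ | IsAlgebraic ℚ x}.Countable := Algebraic.countable ℚ ℂ
  have h2 : (QQ : Set ℂ) = {x : ℂ | IsAlgebraic ℚ x} := by
    ext x; simp [mem_algebraicClosure_iff]
  have h3 : (QQ : Set ℂ).Countable := h2 ▸ h
  exact h3.to_subtype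

instance : Algebra.IsAlgebraic ℚ QQ := algebraicClosure.isAlgebraic ℚ ℂ

instance : Algebra.IsIntegral ℚ QQ := Algebra.isAlgebraic_iff_isIntegral.1 inferInstance

instance : IsAlgClosure ℚ QQ := algebraicClosure.isAlgClosure ℚ ℂ

instance : Normal ℚ QQ := IsAlgClosure.normal ℚ QQ

instance : IsGalois ℚ QQ := ⟨⟩

/-- The field generated by the Satake parameters prime to l is a number field. -/
theorem definedOver_good {S : Finset (Pl F)} {n : ℕ} (A : Fam F S n) (p : ℕ) [Fact p.Prime]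
    (hF : FaltingsFinite F S p n) (hA : AllIso A p) :
    ∃ E : IntermediateField ℚ ℂ, FiniteDimensional ℚ E ∧
      ∀ v, Good S p v → ∀ k, (A.pol v).coeff k ∈ E := by
  classical
  have hc' : ∀ v, Good S p v → ∀ k, ∃ c : QQ, (c : ℂ) = (A.pol v).coeff k := fun v hv k =>
    ⟨⟨_, mem_algebraicClosure_iff.2 (isAlgebraic_coeff A p hA v hv k)⟩, rfl⟩
  choose! c hc using hc'
  obtain ⟨i0, -⟩ := exists_iso_Qlbar (R := ℤ) p (Int.castRingHom ℂ) (Int.castRingHom (Ql p))
    Int.cast_injective Int.cast_injective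
  have hext : ∀ σ : QQ ≃ₐ[ℚ] QQ, ∃ e : ℂ ≃+* Ql p, ∀ x : QQ, e (x : ℂ) = i0 ((σ x : QQ) : ℂ) := by
    intro σ
    obtain ⟨e, he⟩ := exists_iso_Qlbar (R := QQ) p (algebraMap QQ ℂ)
      (((i0 : ℂ →+* Ql p).comp (algebraMap QQ ℂ)).comp (σ : QQ →+* QQ))
      (algebraMap QQ ℂ).injective (RingHom.injective _)
    exact ⟨e, fun x => he x⟩
  choose e he using hext
  choose r hr using fun σ => hA (e σ)
  choose y hy hyc using fun σ => exists_coeffField p (r σ).hom (r σ).cont
  let Y : Set (Ql p) := {y | IsAlgebraic ℚ y}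
  haveI : Countable Y := (Algebraic.countable ℚ (Ql p)).to_subtype
  let B : Y → Set (QQ ≃ₐ[ℚ] QQ) := fun z =>
    {σ | ∀ g i j, ((r σ).hom g).val i j ∈ IntermediateField.adjoin ℚ_[p] {(z : Ql p)}}
  have hU : (⋃ z, closure (B z)) = Set.univ := by
    rw [Set.eq_univ_iff_forall]
    intro σ
    exact Set.mem_iUnion.2 ⟨⟨y σ, hy σ⟩, subset_closure (hyc σ)⟩
  haveI : T2Space (QQ ≃ₐ[ℚ] QQ) := krullTopology_t2
  obtain ⟨z, σ0, hσ0⟩ := nonempty_interior_of_iUnion_of_closed (fun z => isClosed_closure) hU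
  obtain ⟨T, hT⟩ := hF (IntermediateField.adjoin ℚ_[p] {(z : Ql p)}) (fd_adj p z)
  have hnh : (fun τ => σ0 * τ) ⁻¹' interior (closure (B z)) ∈ nhds (1 : QQ ≃ₐ[ℚ] QQ) :=
    (isOpen_interior.preimage (continuous_const_mul σ0)).mem_nhds (by simpa using hσ0)
  obtain ⟨K0, hK0, hK0'⟩ := (krullTopology_mem_nhds_one_iff ℚ QQ _).1 hnh
  let W : Set QQ := ⋃ v ∈ T, ⋃ k ∈ Finset.range (n + 1), {c v k}
  have hW : W.Finite := T.finite_toSet.biUnion fun v _ =>
    (Finset.range (n + 1)).finite_toSet.biUnion fun k _ => Set.finite_singleton _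
  haveI : Finite W := hW
  haveI hW' : FiniteDimensional ℚ (IntermediateField.adjoin ℚ W) :=
    IntermediateField.finiteDimensional_adjoin fun x _ => Algebra.IsIntegral.isIntegral x
  let K' : IntermediateField ℚ QQ := K0 ⊔ IntermediateField.adjoin ℚ W
  haveI : FiniteDimensional ℚ K' := IntermediateField.finiteDimensional_sup _ _
  -- elements of the dense set with prescribed restriction
  have happ : ∀ (τ : QQ ≃ₐ[ℚ] QQ), τ ∈ K'.fixingSubgroup → ∀ x : QQ, ∃ σ ∈ B z,
      (∀ a ∈ K', σ a = σ0 a) ∧ σ x = σ0 (τ x) := by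
    intro τ hτ x
    have hτ0 : τ ∈ K0.fixingSubgroup :=
      IntermediateField.fixingSubgroup_antitone le_sup_left hτ
    have h1 : σ0 * τ ∈ closure (B z) := interior_subset (hK0' hτ0)
    haveI : FiniteDimensional ℚ (IntermediateField.adjoin ℚ {x}) :=
      IntermediateField.adjoin.finiteDimensional (Algebra.IsIntegral.isIntegral x)
    let K2 : IntermediateField ℚ QQ := K' ⊔ IntermediateField.adjoin ℚ {x}
    haveI : FiniteDimensional ℚ K2 := IntermediateField.finiteDimensional_sup _ _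
    have h2 : IsOpen ((fun s => (σ0 * τ)⁻¹ * s) ⁻¹' (K2.fixingSubgroup : Set (QQ ≃ₐ[ℚ] QQ))) :=
      K2.fixingSubgroup_isOpen.preimage (continuous_const_mul _)
    obtain ⟨σ, hσ, hσB⟩ := mem_closure_iff.1 h1 _ h2 (by simp [one_mem])
    have h3 : ∀ a ∈ K2, σ a = σ0 (τ a) := by
      intro a ha
      have h4 : ((σ0 * τ)⁻¹ * σ) a = a :=
        (IntermediateField.mem_fixingSubgroup_iff _ _).1 hσ a ha
      have h5 : (σ0 * τ) (((σ0 * τ)⁻¹ * σ) a) = σ a := by
        rw [← AlgEquiv.mul_apply]; simp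
      rw [← h5, h4]; rfl
    refine ⟨σ, hσB, fun a ha => ?_, ?_⟩
    · rw [h3 a (le_sup_left (a := K') ha),
        (IntermediateField.mem_fixingSubgroup_iff _ _).1 hτ a ha]
    · exact h3 x (le_sup_right (a := K') (IntermediateField.mem_adjoin_simple_self ℚ x))
  have hmem : ∀ w, Good S p w → ∀ k, c w k ∈ K' := by
    intro w hw k
    rw [← InfiniteGalois.fixedField_fixingSubgroup K', IntermediateField.mem_fixedField_iff]
    intro τ hτ
    obtain ⟨σ1, hσ1, h1a, h1b⟩ := happ τ hτ (c w k)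
    obtain ⟨σ2, hσ2, h2a, h2b⟩ := happ 1 (one_mem _) (c w k)
    have hTT : ∀ v ∈ T, Good S p v → ∃ P, HasFrob (r σ1) v P ∧ HasFrob (r σ2) v P := by
      intro v hv hvg
      have heq : (A.pol v).map (e σ1 : ℂ →+* Ql p) = (A.pol v).map (e σ2 : ℂ →+* Ql p) := by
        ext m
        rw [coeff_map, coeff_map]
        change e σ1 _ = e σ2 _
        by_cases hm : m < n + 1
        · have hmW : c v m ∈ K' := by
            refine le_sup_right (a := K0) (IntermediateField.subset_adjoin _ _ ?_)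
            exact Set.mem_biUnion hv (Set.mem_biUnion (Finset.mem_range.2 hm) rfl)
          rw [← hc v hvg m, he, he, h1a _ hmW, h2a _ hmW]
        · rw [coeff_eq_zero_of_natDegree_lt (by rw [A.deg v hvg.1]; omega), map_zero, map_zero]
      refine ⟨_, hr σ1 v hvg, ?_⟩
      change HasFrob (r σ2) v ((A.pol v).map (e σ1 : ℂ →+* Ql p))
      rw [heq]
      exact hr σ2 v hvg
    have h3 := hT (r σ1) (r σ2) hσ1 hσ2
      (fun v hv => ⟨⟨_, hr σ1 v hv⟩, ⟨_, hr σ2 v hv⟩⟩) hTT w hw _ _ (hr σ1 w hw) (hr σ2 w hw)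
    have h4 := congrArg (fun P => Polynomial.coeff P k) h3
    simp only [coeff_map] at h4
    change e σ1 _ = e σ2 _ at h4
    rw [← hc w hw k, he, he] at h4
    have h5 : σ1 (c w k) = σ2 (c w k) := Subtype.ext (i0.injective h4)
    rw [h1b, h2b] at h5
    exact σ0.injective h5
  refine ⟨IntermediateField.lift K',
    (IntermediateField.liftAlgEquiv K').toLinearEquiv.finiteDimensional, fun v hv k => ?_⟩
  rw [← hc v hv k]
  exact (IntermediateField.mem_lift _).2 (hmem v hv k)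

/-- two primes suffice -/
theorem definedOver_two {S : Finset (Pl F)} {n : ℕ} (A : Fam F S n) (p q : ℕ) [Fact p.Prime]
    [Fact q.Prime] (hpq : p ≠ q) (hFp : FaltingsFinite F S p n) (hFq : FaltingsFinite F S q n)
    (hp : AllIso A p) (hq : AllIso A q) :
    ∃ E : IntermediateField ℚ ℂ, FiniteDimensional ℚ E ∧ DefinedOver A E := by
  obtain ⟨E1, h1, h1'⟩ := definedOver_good A p hFp hp
  obtain ⟨E2, h2, h2'⟩ := definedOver_good A q hFq hq
  refine ⟨E1 ⊔ E2, IntermediateField.finiteDimensional_sup _ _, fun v hv k => ?_⟩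
  by_cases hpv : (p : 𝓞 F) ∈ v.asIdeal
  · have hqv : (q : 𝓞 F) ∉ v.asIdeal := by
      intro hqv
      have hcop : IsCoprime (p : ℤ) (q : ℤ) :=
        Nat.isCoprime_iff_coprime.2 ((Nat.coprime_primes Fact.out Fact.out).2 hpq)
      obtain ⟨a, b, hab⟩ := hcop
      apply v.isPrime.ne_top
      rw [Ideal.eq_top_iff_one]
      have h3 : (1 : 𝓞 F) = (a : 𝓞 F) * (p : 𝓞 F) + (b : 𝓞 F) * (q : 𝓞 F) := by
        have := congrArg (Int.cast : ℤ → 𝓞 F) hab
        push_cast at this
        exact this.symm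
      rw [h3]
      exact Ideal.add_mem _ (Ideal.mul_mem_left _ _ hpv) (Ideal.mul_mem_left _ _ hqv)
    exact le_sup_right (a := E1) (h2' v ⟨hv, hqv⟩ k)
  · exact le_sup_left (b := E2) (h1' v ⟨hv, hpv⟩ k)

theorem hasRep_congr {S : Finset (Pl F)} {p : ℕ} [Fact p.Prime] {n : ℕ}
    {P P' : Pl F → (Ql p)[X]} (h : HasRep S p n P) (hP : ∀ v, v ∉ S → P v = P' v) :
    HasRep S p n P' := by
  obtain ⟨r, hr⟩ := h
  exact ⟨r, fun v hv => hP v hv.1 ▸ hr v hv⟩

/-- the conjecture implies its form with isomorphisms of C with the l-adic numbers -/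
theorem allIso_of_buzzardGee {S : Finset (Pl F)} {n : ℕ} (A : Fam F S n)
    (h : BuzzardGee A) (p : ℕ) [Fact p.Prime] : AllIso A p := by
  classical
  intro i
  obtain ⟨E, hE, hD, hR⟩ := h
  have hl : ∀ v, v ∉ S → ∃ B : E[X], B.map (algebraMap E ℂ) = A.pol v := by
    intro v hv
    have : A.pol v ∈ Polynomial.lifts (algebraMap E ℂ) := by
      rw [Polynomial.lifts_iff_coeff_lifts]
      intro k
      exact ⟨⟨_, hD v hv k⟩, rfl⟩
    exact (Polynomial.mem_lifts _).1 this
  choose! B hB using hl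
  refine hasRep_congr (hR p ((i : ℂ →+* Ql p).comp (algebraMap E ℂ)) B hB) fun v hv => ?_
  rw [← Polynomial.map_map, hB v hv]

/-- embeddings of a number field extend to isomorphisms of C with the l-adic numbers -/
theorem extend_embedding {p : ℕ} [Fact p.Prime] (E : IntermediateField ℚ ℂ)
    [FiniteDimensional ℚ E] (i : E →+* Ql p) :
    ∃ e : ℂ ≃+* Ql p, ∀ x : E, e (x : ℂ) = i x := by
  haveI : Countable E := by
    have h1 := Module.Finite.finite_basis (Module.Free.chooseBasis ℚ E)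
    exact (Module.Free.chooseBasis ℚ E).repr.toEquiv.countable_iff.2 inferInstance
  exact exists_iso_Qlbar p (algebraMap E ℂ) i (algebraMap E ℂ).injective i.injective

theorem buzzardGee_iff {S : Finset (Pl F)} {n : ℕ} (A : Fam F S n)
    (hF : ∀ (p : ℕ) [Fact p.Prime], FaltingsFinite F S p n) :
    BuzzardGee A ↔ ∀ (p : ℕ) [Fact p.Prime], AllIso A p := by
  constructor
  · intro h p _
    exact allIso_of_buzzardGee A h p
  · intro h
    haveI : Fact (Nat.Prime 2) := ⟨Nat.prime_two⟩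
    haveI : Fact (Nat.Prime 3) := ⟨Nat.prime_three⟩
    obtain ⟨E, hE, hD⟩ := definedOver_two A 2 3 (by norm_num) (hF 2) (hF 3) (h 2) (h 3)
    refine ⟨E, hE, hD, fun p _ i B hB => ?_⟩
    obtain ⟨e, he⟩ := extend_embedding E i
    refine hasRep_congr (h p e) fun v hv => ?_
    rw [← hB v hv, Polynomial.map_map]
    congr 1
    ext x
    exact he x

end Pool.Agent.R390.BG
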